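import Pool.Agent.P8H28.OP.MT

/-!
# Effective laws for two systems of classes, one contained in the other
-/

set_option linter.unusedSectionVars false

open CategoryTheory AlgebraicGeometry

universe u v

namespace Pool.Agent.P8H28.DB

open Module
open Pool.Agent.H914 Pool.Agent.H914.VarClass Pool.Agent.H914.VarClass.Obj
  Pool.Agent.H914.WeilCohomology
open Pool.Agent.Y133.Half Pool.Agent.Y133.Half.Sys
open Pool.Agent.P8H28.OP
open Pool.Agent.P8H28.AT (a_eq)

variable {k : Type u} [Field k] {𝒱 : VarClass k} {ops : CycleOps 𝒱}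

section

variable {W : WeilCohomology.{u, v} ops} {S T : Sys W} {X : 𝒱.Obj}

/-- The family given by a larger system. -/
noncomputable def famSys (hST : ∀ Z, S.C Z ≤ T.C Z) (X : 𝒱.Obj) : Fam S X where
  F n := T.C (pw X n)
  le n := hST _
  op hf _ hx := Op.apply hST hf hx

lemma hasCh_two (hST : ∀ Z, S.C Z ≤ T.C Z) {m : ℕ} (h : ¬ T.C (pw X m) ≤ S.C (pw X m)) :
    HasCh (famSys hST X) m 2 := by
  have h1 : (1 : W.H (pw X m)) ≠ 0 := by
    intro h0
    apply h
    intro x _
    have h2 : x = 0 := by rw [← mul_one x, h0, mul_zero]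
    rw [h2]
    exact Submodule.zero_mem _
  refine ⟨pw X m, Iso.refl _, fun i => if i = 0 then ⊥ else if i = 1 then S.C (pw X m) else
    T.C (pw X m), ?_, ?_, ?_⟩
  · intro i f hf x hx
    dsimp only at hx ⊢
    split_ifs at hx ⊢ with h2 h3
    · rw [(Submodule.mem_bot _).1 hx, map_zero]
      exact Submodule.zero_mem _
    · exact Op.apply (fun _ => le_rfl) hf hx
    · exact Op.apply hST hf hx
  · intro i hi
    obtain rfl | rfl : i = 0 ∨ i = 1 := by omega
    · dsimp only
      rw [if_pos rfl, if_neg (by omega), if_pos rfl, bot_lt_iff_ne_bot]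
      intro h'
      have h2 : (1 : W.H (pw X m)) ∈ S.C (pw X m) := S.one _
      rw [h', Submodule.mem_bot] at h2
      exact h1 h2
    · dsimp only
      rw [if_neg (by omega), if_pos rfl, if_neg (by omega), if_neg (by omega)]
      exact lt_of_le_not_ge (hST _) h
  · dsimp only
    rw [if_neg (by omega), if_neg (by omega)]
    intro x hx
    change W.map (𝟙 _) x ∈ T.C (pw X m)
    rw [W.map_id]
    exact hx

/-- **The effective half law**, the smaller system having a perfect pairing. -/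
theorem pair_half (hST : ∀ Z, S.C Z ≤ T.C Z) (hN : ∀ Z : 𝒱.Obj, S.Num Z = ⊥) (m : ℕ)
    {b c : ℕ} (hb : b = finrank W.K (W.H X)) (hc : c = 6 * (m + 4) * b ^ (m + 6)) :
    T.C (pw X m) ≤ S.C (pw X m) ∨ ∀ n : ℕ, 0 < n →
      ((2 : ℝ) - c * Real.log (n + 2) / n) * finrank W.K (S.C (pw X n)) ≤
        finrank W.K (T.C (pw X n)) := by
  by_cases h : T.C (pw X m) ≤ S.C (pw X m)
  · exact Or.inl h
  right
  intro n hn
  have h2 := bound_nd (famSys hST X) hN (hasCh_two hST h) (c := c) (by rw [hc, hb]) hn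
  rw [a_eq (hN _)] at h2
  exact_mod_cast h2

/-- The effective half law for two arbitrary systems. -/
theorem pair_half_num (hST : ∀ Z, S.C Z ≤ T.C Z) (m : ℕ)
    {b c : ℕ} (hb : b = finrank W.K (W.H X)) (hc : c = 18 * (m + 4) * b ^ (m + 6)) :
    T.C (pw X m) ≤ S.C (pw X m) ∨ ∀ n : ℕ, 0 < n →
      ((2 : ℝ) - c * Real.log (n + 2) / n) * S.a (pw X n) ≤ finrank W.K (T.C (pw X n)) := by
  by_cases h : T.C (pw X m) ≤ S.C (pw X m)
  · exact Or.inl h
  right
  intro n hn
  have h2 := bound (famSys hST X) (hasCh_two hST h) (c := c) (by rw [hc, hb]) hn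
  exact_mod_cast h2

end

variable {W : WeilCohomology.{u, 0} ops} {S T : Sys W} {X : 𝒱.Obj}

/-- **The effective one percent law** for a class without relations. -/
theorem pair_rel (hST : ∀ Z, S.C Z ≤ T.C Z) (hN : ∀ Z : 𝒱.Obj, S.Num Z = ⊥) {κ : ℕ}
    {q : W.H (pw X κ)} (hq : q ∈ T.C (pw X κ)) (hrel : NoRel S (1 : W.H X) q) {l : W.H X}
    (hl : l ∈ S.C X) (hl1 : W.tr X l = 1) {N c b : ℕ} (hN0 : 0 < N)
    (hb : b = finrank W.K (W.H X))
    (hc : c = 3 * N * (N * (κ + 1) + 3) * b ^ (N * (κ + 1) + 5)) {n : ℕ} (hn : 0 < n) :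
    ((N : ℝ) - c * Real.log (n + 2) / n) * finrank W.K (S.C (pw X n)) ≤
      finrank W.K (T.C (pw X n)) := by
  have h1 := bound_rel hN (famSys hST X) (fun n x hx y hy => T.mul hx hy)
    (fun m n f _ x hx => T.map f hx) hq hrel hl hl1 hN0 (c := c) (by rw [hc, hb]) hn
  rw [a_eq (hN _)] at h1
  exact h1

end Pool.Agent.P8H28.DB
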