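import Pool.Agent.P8H28.DB.Pair
import Pool.Agent.R920.DB.Main
import Pool.Agent.Y133.Half.DLaw

/-!
# The effective one percent law for the de Rham-Betti classes
-/

set_option linter.unusedSectionVars false

open CategoryTheory AlgebraicGeometry TensorProduct

universe u

namespace Pool.Agent.P8H28.DB

open Module
open Pool.Agent.H914 Pool.Agent.H914.VarClass Pool.Agent.H914.VarClass.Obj
  Pool.Agent.H914.WeilCohomology
open Pool.Agent.Y133.Half Pool.Agent.Y133.Half.Sys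
open Pool.Agent.Y121.AH
open Pool.Agent.Y133.Per Pool.Agent.R920.MT Pool.Agent.R920.DB
open Pool.Agent.P8H28.OP

variable {k : Type u} [Field k] {𝒱 : VarClass k} {ops : CycleOps 𝒱}
  {T : HodgeTheory ops} {F : Subfield ℂ} {X P Q Z : 𝒱.Obj}

/-- The classes which are Hodge classes and de Rham-Betti classes. -/
noncomputable def bothPred (D : DeRham T.W F) : ClassPred T.W where
  P X j c := IsHodge T X j c ∧ IsDRB D X j c
  gr h := h.1.1
  zero := ⟨(hodgePred T).zero, IsDRB.zero⟩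
  add ha hb := ⟨(hodgePred T).add ha.1 hb.1, IsDRB.add ha.2 hb.2⟩
  smul r _ ha := ⟨(hodgePred T).smul r ha.1, IsDRB.smul r ha.2⟩
  cl hz := ⟨(hodgePred T).cl hz, IsDRB.cl hz⟩
  mul ha hb := ⟨(hodgePred T).mul ha.1 hb.1, IsDRB.mul ha.2 hb.2⟩
  map f _ _ h := ⟨(hodgePred T).map f h.1, IsDRB.map f h.2⟩
  push f _ _ hl _ h := ⟨(hodgePred T).push f hl h.1, IsDRB.push f hl h.2⟩

variable {D : DeRham T.W F}

lemma lifts_both (hD : IsGraded D) : Lifts T (bothPred D) := by
  intro X E hE j hj v hv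
  obtain ⟨x, hx, hxv⟩ := lifts_hodge T X E hE j hj v hv.1
  refine ⟨x, ⟨hx, drb_lift hD hE.1 hE.2.1 hj hx.1 ?_⟩, hxv⟩
  rw [powMul, hxv]
  exact hv.2

lemma both_num (hD : IsGraded D) (X : 𝒱.Obj) : (bothPred D).sys.Num X = ⊥ := by
  rw [eq_bot_iff]
  intro x hx
  exact q_nondeg_sys (Q := bothPred D)
    (fun {X j x} (h : IsHodge T X j x ∧ IsDRB D X j x) => h.1) (lifts_both hD) hx.1 hx.2

lemma sp_le {W : WeilCohomology.{u, 0} ops} {Q Q' : ClassPred W}
    (h : ∀ (X : 𝒱.Obj) (j : ℕ) (c : W.H X), Q.P X j c → Q'.P X j c) (Z : 𝒱.Obj) :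
    Q.sys.C Z ≤ Q'.sys.C Z := by
  refine Submodule.span_mono ?_
  rintro c ⟨j, hj⟩
  exact ⟨j, h Z j c hj⟩

lemma sp_hom {W : WeilCohomology.{u, 0} ops} {Q : ClassPred W} {j : ℕ} {c : W.H X}
    (hc : c ∈ W.gr X (2 * j)) (h : c ∈ Q.sys.C X) : Q.P X j c := by
  have h1 := ClassPred.sp_proj (Q := Q) (show c ∈ Q.sp X from h) j
  rwa [proj_same _ hc] at h1

/-- The realisation in the cohomology with complex coefficients. -/
noncomputable def rlzQ (T : HodgeTheory ops) : Rlz T.W (CW T) where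
  s := (show T.W.K →+* (CW T).K from algebraMap T.W.K ℂ)
  c := 1
  ne := one_ne_zero
  E X := (Algebra.TensorProduct.includeRight : T.W.H X →ₐ[T.W.K] ℂ ⊗[T.W.K] T.W.H X).toRingHom
  semi _ r a := em_smul r a
  gr h := em_gr h
  nat f b := (em_map f b).symm
  push f a := by
    rw [one_pow, one_pow, one_smul, one_smul]
    exact (em_push f a).symm

lemma rlzQ_apply (x : T.W.H X) : (rlzQ T).E X x = em T.W ℂ x := rfl

lemma both_fix (X : 𝒱.Obj) {x : T.W.H X} (hx : x ∈ (bothPred D).sys.C X) :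
    gop T X ((rlzQ T).E X x) = (rlzQ T).E X x := by
  have hx' : x ∈ (bothPred D).sp X := hx
  refine ClassPred.sp_ind (Q := bothPred D)
    (q := fun x => gop T X ((rlzQ T).E X x) = (rlzQ T).E X x) ?_ ?_ ?_ hx'
  · intro j x hx
    exact gop_hodge hx.1
  · rw [map_zero, map_zero]
  · intro x y hx hy
    rw [map_add, map_add, hx, hy]

/-- The external powers of a class which is not a Hodge class satisfy no relation. -/
theorem norel [Nontrivial (T.W.H X)] {j : ℕ} {q : T.W.H Q} (hq : q ∈ T.W.gr Q (2 * j))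
    (hq' : ¬ IsHodge T Q j q) : NoRel (bothPred D).sys (1 : T.W.H X) q := by
  by_contra h
  apply hq'
  unfold NoRel at h
  push Not at h
  obtain ⟨t, ht⟩ := h
  have hq0 : q ∈ PH T.W Q 0 := PH.of' (by omega) hq
  have hall := rel_all hq0 ht
  have h1 := fix_of_rel' (X := X) (rlzQ T) (muT_ne (T' := T) (qn X Q) t) hq fun m =>
      rel_EE _ (fun X x hx => both_fix (D := D) X hx) (hall m)
  exact ⟨hq, pq_of_fix' ((rlzQ T).gr hq) h1⟩

lemma both_le (Z : 𝒱.Obj) : (bothPred D).sys.C Z ≤ (drbPred D).sys.C Z :=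
  sp_le (Q := bothPred D) (Q' := drbPred D)
    (fun X j c (h : IsHodge T X j c ∧ IsDRB D X j c) => h.2) Z

/-- **The effective one percent law for de Rham-Betti classes.** -/
theorem drb_law (hD : IsGraded D) (X : 𝒱.Obj) (κ b : ℕ) (hb : b = finrank T.W.K (T.W.H X)) :
    (∀ j c, IsDRB D (pw X κ) j c → IsHodge T (pw X κ) j c) ∨
    ((∀ N n : ℕ, 0 < N → 0 < n →
      ((N : ℝ) - (3 * N * (N * (κ + 1) + 3) * b ^ (N * (κ + 1) + 5) : ℕ) *
        Real.log (n + 2) / n) * finrank T.W.K ((bothPred D).sys.C (pw X n)) ≤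
          finrank T.W.K ((drbPred D).sys.C (pw X n))) ∧
      ∀ n : ℕ, Real.log (n + 1) * finrank T.W.K ((bothPred D).sys.C (pw X n)) ≤
        56 * (κ + 1) * Real.log (2 * b) * finrank T.W.K ((drbPred D).sys.C (pw X n))) := by
  by_cases h : ∀ j c, IsDRB D (pw X κ) j c → IsHodge T (pw X κ) j c
  · exact Or.inl h
  right
  push Not at h
  obtain ⟨j, q, hq, hq'⟩ := h
  have hb0 : 0 < b := by
    rw [Nat.pos_iff_ne_zero]
    intro h0
    apply hq'
    have h1 : finrank T.W.K (T.W.H (pw X κ)) = 0 := by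
      rw [finrank_pw, ← hb, h0, zero_pow (by omega)]
    have h2 : Subsingleton (T.W.H (pw X κ)) := Module.finrank_zero_iff.1 h1
    rw [Subsingleton.elim q 0]
    exact (hodgePred T).zero
  have hnt : Nontrivial (T.W.H X) := by
    apply Module.nontrivial_of_finrank_pos (R := T.W.K)
    rw [← hb]
    exact hb0
  obtain ⟨E, hE⟩ := T.dec.polar X
  obtain ⟨l, hl, hl1⟩ : ∃ l ∈ (bothPred D).sys.C X, T.W.tr X l = 1 := by
    have h0 : (1 : T.W.H X) ∉ (bothPred D).sys.Num X := by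
      rw [both_num hD X, Submodule.mem_bot]
      exact one_ne_zero
    have h1 : ¬ ∀ y ∈ (bothPred D).sys.C X, T.W.tr X ((1 : T.W.H X) * y) = 0 := fun h =>
      h0 ⟨(bothPred D).sys.one X, h⟩
    push Not at h1
    obtain ⟨y, hy, hy1⟩ := h1
    rw [one_mul] at hy1
    exact ⟨(T.W.tr X y)⁻¹ • y, Submodule.smul_mem _ _ hy, by
      rw [map_smul, smul_eq_mul, inv_mul_cancel₀ hy1]⟩
  have hqD : q ∈ (drbPred D).sys.C (pw X κ) := ClassPred.sp_of (Q := drbPred D) hq
  have key : ∀ N n : ℕ, 0 < N → 0 < n →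
      ((N : ℝ) - (3 * N * (N * (κ + 1) + 3) * b ^ (N * (κ + 1) + 5) : ℕ) *
        Real.log (n + 2) / n) * finrank T.W.K ((bothPred D).sys.C (pw X n)) ≤
          finrank T.W.K ((drbPred D).sys.C (pw X n)) := fun N n hN hn =>
    pair_rel both_le (both_num hD) hqD (norel hq.1 hq') hl hl1 hN hb rfl hn
  refine ⟨key, ?_⟩
  apply Pool.Agent.P8H28.DL.rate hb0
  · intro n
    exact Submodule.finrank_mono (both_le _)
  · intro N n hN hn
    have h1 := key N n hN hn
    rw [mul_div_assoc] at h1 ⊢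
    refine bound_mono ?_ (log_div_nonneg n) (Nat.cast_nonneg _) h1
    apply Nat.mul_le_mul_right
    calc 3 * N * (N * (κ + 1) + 3) = 3 * N * 1 * (N * (κ + 1) + 3) := by ring
      _ ≤ 3 * N * (N + 1) * (N * (κ + 1) + 3) :=
        Nat.mul_le_mul_right _ (Nat.mul_le_mul_left _ (by omega))

lemma mot_num (T : HodgeTheory ops) (X : 𝒱.Obj) : (motPred T.W).sys.Num X = ⊥ := by
  rw [eq_bot_iff]
  intro x hx
  exact (Submodule.mem_bot _).2 (mot_nondeg T X x hx.1 hx.2)

lemma mot_le (hD : IsGraded D) (Z : 𝒱.Obj) : (motPred T.W).sys.C Z ≤ (drbPred D).sys.C Z :=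
  sp_le (Q := motPred T.W) (Q' := drbPred D)
    (fun X j c (h : IsMotivated T.W X j c) => mot_drb hD h) Z

lemma mot_le_both (hD : IsGraded D) (Z : 𝒱.Obj) :
    (motPred T.W).sys.C Z ≤ (bothPred D).sys.C Z :=
  sp_le (Q := motPred T.W) (Q' := bothPred D)
    (fun X j c (h : IsMotivated T.W X j c) =>
      (⟨IsMotivated.hodge h, mot_drb hD h⟩ : IsHodge T X j c ∧ IsDRB D X j c)) Z

/-- The effective half law for motivated and de Rham-Betti classes. -/
theorem mot_law (hD : IsGraded D) (X : 𝒱.Obj) (m : ℕ) {b c : ℕ}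
    (hb : b = finrank T.W.K (T.W.H X)) (hc : c = 6 * (m + 4) * b ^ (m + 6)) :
    (∀ j c, IsDRB D (pw X m) j c → IsMotivated T.W (pw X m) j c) ∨ ∀ n : ℕ, 0 < n →
      ((2 : ℝ) - c * Real.log (n + 2) / n) * finrank T.W.K ((motPred T.W).sys.C (pw X n)) ≤
        finrank T.W.K ((drbPred D).sys.C (pw X n)) := by
  rcases pair_half (mot_le hD) (mot_num T) m hb hc with h | h
  · left
    intro j c hc
    exact sp_hom (Q := motPred T.W) hc.1 (h (ClassPred.sp_of (Q := drbPred D) hc))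
  · exact Or.inr h

lemma alg_le_drb (Z : 𝒱.Obj) : (algSys T.W).C Z ≤ (drbPred D).sys.C Z := by
  intro x hx
  refine Pool.Agent.W536.RR.algSpan_induction (p := fun x => x ∈ (drbPred D).sys.C Z)
    ?_ ?_ ?_ ?_ hx
  · exact Submodule.zero_mem _
  · intro a b ha hb; exact Submodule.add_mem _ ha hb
  · intro r a ha; exact Submodule.smul_mem _ _ ha
  · intro j z hz; exact ClassPred.sp_of (Q := drbPred D) (IsDRB.cl hz)

/-- The effective half law for algebraic cycles and de Rham-Betti classes. -/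
theorem alg_law (X : 𝒱.Obj) (m : ℕ) {b c : ℕ}
    (hb : b = finrank T.W.K (T.W.H X)) (hc : c = 18 * (m + 4) * b ^ (m + 6)) :
    (∀ j c, IsDRB D (pw X m) j c → c ∈ spanCycles T.W (pw X m) j) ∨ ∀ n : ℕ, 0 < n →
      ((2 : ℝ) - c * Real.log (n + 2) / n) * cycRank ops (pw X n) ≤
        finrank T.W.K ((drbPred D).sys.C (pw X n)) := by
  rcases pair_half_num (S := algSys T.W) (T := (drbPred D).sys) alg_le_drb m hb hc with h | h
  · left
    intro j c hc
    exact spanCycles_of_algSpan (h (ClassPred.sp_of (Q := drbPred D) hc)) hc.1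
  · right
    intro n hn
    have h1 := h n hn
    rw [numDim_eq_cycRank] at h1
    exact h1

end Pool.Agent.P8H28.DB
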