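import Pool.Agent.P8H28.DB.Defs
import Pool.Agent.P8H28.DB.Law
import Pool.Agent.Y121.AHS.Conv
import Pool.Agent.N996.BP.Fin1

/-!
# Comparison of the definitions of de Rham structures
-/

open CategoryTheory AlgebraicGeometry TensorProduct

universe u

namespace Pool.Agent.P8H28.DB

open Pool.Agent.H914 Pool.Agent.H914.VarClass Pool.Agent.H914.VarClass.Obj
  Pool.Agent.H914.WeilCohomology
open Pool.Agent.Y121.AHS (HodgeTheory toH HL emL smL twL mulL mapL trL IsDeg)
open Pool.Agent.Y133
open Pool.Agent.Y133.Half (pw)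
open Pool.Agent.R920.DB (baseSub IsGraded IsGradedSet)

variable {k : Type u} [Field k] {𝒱 : VarClass k} {ops : CycleOps 𝒱}

section

variable {W : WeilCohomology.{u, 0} ops} [Algebra W.K ℂ] {F : Subfield ℂ} (D : DeRham W F)
  {X Y : 𝒱.Obj}

/-- The de Rham cohomology of all degrees. -/
noncomputable def grp (X : 𝒱.Obj) : AddSubgroup (Per.Base W.K (W.H X)) :=
  AddSubgroup.closure {a | ∃ i, D.dR X i a}

variable {D}

lemma neg_dR {i : ℕ} {a : HL W ℂ X} (h : D.dR X i a) : D.dR X i (-a) := by
  have h1 := (D.form X i).smul (-1) (neg_mem (one_mem F)) a h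
  have h2 : Pool.Agent.Y121.AHS.extSm W.K ℂ (-1 : ℂ) (a : HL W ℂ X) = -a := by
    change (-1 : ℂ) • (a : HL W ℂ X) = -a
    rw [neg_smul, one_smul]
  rwa [h2] at h1

lemma grp_ind {p : Per.Base W.K (W.H X) → Prop} (h : ∀ i a, D.dR X i a → p a) (h0 : p 0)
    (hadd : ∀ a b, p a → p b → p (a + b)) {a : Per.Base W.K (W.H X)} (ha : a ∈ grp D X) : p a := by
  have key : ∀ a ∈ grp D X, p a ∧ p (-a) := by
    intro a ha
    unfold grp at ha
    induction ha using AddSubgroup.closure_induction with
    | mem x hx =>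
      obtain ⟨i, hi⟩ := hx
      exact ⟨h i x hi, h i _ (neg_dR hi)⟩
    | zero => exact ⟨h0, by rw [neg_zero]; exact h0⟩
    | add x y _ _ hx hy => exact ⟨hadd _ _ hx.1 hy.1, by rw [neg_add]; exact hadd _ _ hx.2 hy.2⟩
    | neg x _ hx => exact ⟨hx.2, by rw [neg_neg]; exact hx.1⟩
  exact (key a ha).1

lemma grp_of {i : ℕ} {a : Per.Base W.K (W.H X)} (h : D.dR X i a) : a ∈ grp D X :=
  AddSubgroup.subset_closure ⟨i, h⟩

lemma deg_mem {i : ℕ} {a : HL W ℂ X} (h : IsDeg i a) :
    (show Per.Base W.K (W.H X) from a) ∈ baseSub (W.gr X i) := by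
  have h' : a ∈ (W.gr X i).baseChange ℂ := h
  refine base_induction (P := fun x : ℂ ⊗[W.K] W.H X =>
    (show Per.Base W.K (W.H X) from x) ∈ baseSub (W.gr X i)) ?_ ?_ ?_ h'
  · exact Submodule.zero_mem _
  · intro x y hx hy
    exact Submodule.add_mem _ hx hy
  · intro l a ha
    exact Pool.Agent.R920.DB.tm_mem l ha

lemma twL_eq (j : ℕ) (c : W.H X) :
    @Eq (Per.Base W.K (W.H X)) (twL tpi j (emL W ℂ c)) (Per.twist j c) := by
  change (tpi ^ j • (Per.tm 1 c : Per.Base W.K (W.H X))) = Per.tm (Per.twoPiI ^ j) c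
  rw [Per.smul_tm, mul_one]
  rfl

/-- The de Rham structure in the sense of the older definition. -/
noncomputable def toPer (D : DeRham W F) (hK : ∀ r : W.K, algebraMap W.K ℂ r ∈ F) :
    Per.DeRham W F where
  dR X := {a | a ∈ grp D X}
  form X :=
    { zero := zero_mem (grp D X)
      add := fun a ha b hb => (add_mem (show a ∈ grp D X from ha) (show b ∈ grp D X from hb) :
        a + b ∈ grp D X)
      smul := fun r hr a ha => by
        refine grp_ind (D := D) (p := fun a => r • a ∈ grp D X) ?_ ?_ ?_ ha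
        · intro i a ha
          exact grp_of ((D.form X i).smul r hr a ha)
        · rw [smul_zero]; exact zero_mem _
        · intro a b ha hb; rw [smul_add]; exact add_mem ha hb
      scal := hK
      span := by
        rw [eq_top_iff]
        intro b _
        have h1 : ∀ i (a : HL W ℂ X), IsDeg i a → (show Per.Base W.K (W.H X) from a) ∈
            Submodule.span ℂ {a | a ∈ grp D X} := by
          intro i a ha
          have h2 : Submodule.span ℂ {b : Per.Base W.K (W.H X) | D.dR X i b} ≤
              Submodule.span ℂ {a | a ∈ grp D X} :=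
            Submodule.span_mono fun b hb => grp_of hb
          exact h2 ((D.form X i).span a ha)
        refine Per.base_ind (p := fun b => b ∈ Submodule.span ℂ {a | a ∈ grp D X}) ?_ ?_ ?_ b
        · exact Submodule.zero_mem _
        · intro r c
          refine gr_induction (W.isInternal X) (p := fun c => Per.tm r c ∈
            Submodule.span ℂ {a | a ∈ grp D X}) ?_ ?_ c
          · intro i c hc
            exact h1 i (Per.tm r c) (Submodule.tmul_mem_baseChange_of_mem r hc)
          · intro a b ha hb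
            rw [Per.tm_add]
            exact Submodule.add_mem _ ha hb
        · intro a b ha hb
          exact Submodule.add_mem _ ha hb
      mul := fun a ha b hb => by
        refine grp_ind (D := D) (p := fun a => a * b ∈ grp D X) ?_ ?_ ?_ ha
        · intro i a ha
          refine grp_ind (D := D) (p := fun b => (show Per.Base W.K (W.H X) from a) * b ∈ grp D X)
            ?_ ?_ ?_ hb
          · intro j b hb
            exact grp_of (D.mul X i j a b ha hb)
          · rw [mul_zero]; exact zero_mem _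
          · intro x y hx hy; rw [mul_add]; exact add_mem hx hy
        · rw [zero_mul]; exact zero_mem _
        · intro x y hx hy; rw [add_mul]; exact add_mem hx hy
      cyc := by
        rintro j _ ⟨z, hz, rfl⟩
        change Per.twist j (W.cl X z) ∈ grp D X
        rw [← twL_eq (X := X) j (W.cl X z)]
        exact grp_of (D.cyc X j z hz)
      tr := fun a ha => by
        refine grp_ind (D := D) (p := fun a => ∃ r ∈ F, Per.baseTr (W.tr X) a =
          Per.twoPiI ^ X.dim * r) ?_ ?_ ?_ ha
        · intro i a ha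
          by_cases hi : i = 2 * X.dim
          · subst hi
            exact D.tr X a ha
          · refine ⟨0, zero_mem _, ?_⟩
            rw [mul_zero]
            exact Pool.Agent.R920.DB.tr_of_ne hi (deg_mem ((D.form X i).le a ha))
        · exact ⟨0, zero_mem _, by rw [map_zero, mul_zero]⟩
        · rintro a b ⟨r, hr, h⟩ ⟨s, hs, h'⟩
          exact ⟨r + s, add_mem hr hs, by rw [map_add, h, h', mul_add]⟩ }
  map {X Y} f a ha := by
    refine grp_ind (D := D) (p := fun a => Per.baseMap (W.map f) a ∈ grp D X) ?_ ?_ ?_ ha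
    · intro i a ha
      have h1 := grp_of (D.map X Y f i a ha)
      have h2 := Pool.Agent.Y121.AHS.mapBase_eq (L := ℂ) (W.map f) a
      exact h2 ▸ h1
    · rw [map_zero]; exact zero_mem _
    · intro a b ha hb; rw [map_add]; exact add_mem ha hb

variable {hK : ∀ r : W.K, algebraMap W.K ℂ r ∈ F}

lemma exists_parts {a : Per.Base W.K (W.H X)} (ha : a ∈ grp D X) :
    ∃ f : ℕ → Per.Base W.K (W.H X), (∀ i, D.dR X i (f i)) ∧
      a = ∑ i ∈ Finset.range (2 * X.dim + 1), f i := by
  refine grp_ind (D := D) (p := fun a => ∃ f : ℕ → Per.Base W.K (W.H X),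
    (∀ i, D.dR X i (f i)) ∧ a = ∑ i ∈ Finset.range (2 * X.dim + 1), f i) ?_ ?_ ?_ ha
  · intro i a ha
    refine ⟨fun l => if l = i then a else 0, fun l => ?_, ?_⟩
    · dsimp only
      split_ifs with h
      · rw [h]; exact ha
      · exact (D.form X l).zero
    · by_cases hi : i ∈ Finset.range (2 * X.dim + 1)
      · rw [Finset.sum_ite_eq_of_mem' _ _ _ hi]
      · have h1 := deg_mem ((D.form X i).le a ha)
        rw [W.gr_eq_bot X i (by rw [Finset.mem_range] at hi; omega)] at h1
        have h2 : a = 0 := by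
          refine Pool.Agent.R920.DB.baseSub_ind (U := (⊥ : Submodule W.K (W.H X)))
            (p := fun a => a = 0) rfl ?_ ?_ h1
          · intro r c hc
            rw [(Submodule.mem_bot _).1 hc, Per.tm_zero]
          · intro a b ha hb
            rw [ha, hb, add_zero]
        rw [Finset.sum_ite_eq', if_neg hi]
        exact h2
  · exact ⟨fun _ => 0, fun i => (D.form X i).zero, by rw [Finset.sum_const_zero]⟩
  · rintro a b ⟨f, hf, rfl⟩ ⟨g, hg, rfl⟩
    exact ⟨fun i => f i + g i, fun i => (D.form X i).add _ _ (hf i) (hg i), by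
      rw [Finset.sum_add_distrib]⟩

lemma isGraded : IsGraded (toPer D hK) := by
  intro X a ha
  obtain ⟨f, hf, h⟩ := exists_parts (D := D) (show a ∈ grp D X from ha)
  exact ⟨f, fun i => ⟨grp_of (hf i), deg_mem ((D.form X i).le _ (hf i))⟩, h⟩

lemma isDRB_iff {j : ℕ} {c : W.H X} : Per.IsDRB (toPer D hK) X j c ↔ IsDRB D X j c := by
  constructor
  · rintro ⟨h1, h2⟩
    have h0 := twL_eq (X := X) j c
    change (fun z : Per.Base W.K (W.H X) => D.dR X (2 * j) z) (twL tpi j (emL W ℂ c))
    rw [h0]
    by_cases hj : 2 * j ≤ 2 * X.dim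
    · obtain ⟨f, hf, h⟩ := exists_parts (D := D) (a := Per.twist j c) h2
      have h3 : Pool.Agent.R920.DB.bproj W X (2 * j) (Per.twist j c) = Per.twist j c :=
        Pool.Agent.R920.DB.bproj_same (Pool.Agent.R920.DB.tm_mem _ h1)
      rw [h, map_sum, Finset.sum_eq_single_of_mem (2 * j) (Finset.mem_range.2 (by omega))
        (fun l _ hl => Pool.Agent.R920.DB.bproj_ne hl (deg_mem ((D.form X l).le _ (hf l)))),
        Pool.Agent.R920.DB.bproj_same (deg_mem ((D.form X _).le _ (hf _))), ← h] at h3
      rw [← h3]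
      exact hf _
    · rw [W.gr_eq_bot X (2 * j) (by omega)] at h1
      rw [(Submodule.mem_bot _).1 h1, Per.twist, Per.tm_zero]
      exact (D.form X _).zero
  · intro h2
    have h0 := twL_eq (X := X) j c
    have h1 : c ∈ W.gr X (2 * j) := by
      have h3 : twL tpi j (emL W ℂ c) ∈ (W.gr X (2 * j)).baseChange ℂ :=
        (D.form X (2 * j)).le _ h2
      have h4 : tpi ^ j • ((1 : ℂ) ⊗ₜ[W.K] c) ∈ (W.gr X (2 * j)).baseChange ℂ := h3
      have h5 := Pool.Agent.Y121.AH.smul_mem_cancel (pow_ne_zero j Per.twoPiI_ne) h4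
      exact Pool.Agent.Y121.AH.mem_of_em_mem h5
    refine ⟨h1, ?_⟩
    change Per.twist j c ∈ grp D X
    rw [← h0]
    exact grp_of h2

end

section Alg

variable {W : WeilCohomology.{u, 0} ops} {X : 𝒱.Obj}

open Module Pool.Agent.Y133.Half

lemma span_alg (W : WeilCohomology.{u, 0} ops) (X : 𝒱.Obj) :
    Submodule.span W.K {c | ∃ j, IsAlg W X j c} = (algSys W).C X := by
  have h : ({c | ∃ j, IsAlg W X j c} : Set (W.H X)) = ⋃ j, H914.algClasses W X j := by
    apply Set.ext
    intro c
    exact (Set.mem_iUnion (x := c) (s := fun j => H914.algClasses W X j)).symm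
  exact congrArg (fun s : Set (W.H X) => Submodule.span W.K s) h

lemma span_orth (W : WeilCohomology.{u, 0} ops) (X : 𝒱.Obj) :
    Submodule.span W.K (orth (W.tr X) {c | ∃ j, IsAlg W X j c}) = (algSys W).Num X := by
  have h : orth (W.tr X) {c | ∃ j, IsAlg W X j c} = ((algSys W).Num X : Set (W.H X)) := by
    ext c
    constructor
    · rintro ⟨h1, h2⟩
      rw [span_alg] at h1
      refine ⟨h1, fun d hd => ?_⟩
      rw [← span_alg] at hd
      induction hd using Submodule.span_induction with
      | mem x hx => exact h2 x hx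
      | zero => rw [mul_zero, map_zero]
      | add x y _ _ hx hy => rw [mul_add, map_add, hx, hy, add_zero]
      | smul r x _ hx => rw [mul_smul_comm, map_smul, hx, smul_zero]
    · rintro ⟨h1, h2⟩
      refine ⟨by rw [span_alg]; exact h1, fun x hx => h2 x ?_⟩
      rw [← span_alg]
      exact Submodule.subset_span hx
  rw [h, Submodule.span_eq]

lemma algRank_eq (W : WeilCohomology.{u, 0} ops) (X : 𝒱.Obj) (n : ℕ) :
    algRank W X n = (algSys W).a (pw X n) := by
  have h1 := (algSys W).a_add_num (pw X n)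
  unfold algRank rankOf cnt Set.finrank
  rw [span_alg, span_orth]
  omega

lemma alg_law' {T : Pool.Agent.Y121.AH.HodgeTheory ops} {F : Subfield ℂ} {D : Per.DeRham T.W F}
    (X : 𝒱.Obj) (m : ℕ) {b c : ℕ}
    (hb : b = finrank T.W.K (T.W.H X)) (hc : c = 18 * (m + 4) * b ^ (m + 6)) :
    (∀ j c, Per.IsDRB D (pw X m) j c → c ∈ spanCycles T.W (pw X m) j) ∨ ∀ n : ℕ, 0 < n →
      ((2 : ℝ) - c * Real.log (n + 2) / n) * algRank T.W X n ≤
        finrank T.W.K ((Per.drbPred D).sys.C (pw X n)) := by
  rcases alg_law (D := D) X m hb hc with h | h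
  · exact Or.inl h
  · right
    intro n hn
    rw [algRank_eq, numDim_eq_cycRank]
    exact h n hn

end Alg

end Pool.Agent.P8H28.DB
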