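import Pool.Agent.Y121.AHS.Defs
import Pool.Agent.Y133.Half.PwDefs

/-!
# De Rham structures and de Rham-Betti classes: definitions

In the intended use `k` is a subfield of the algebraic numbers, `W` is the cohomology of the complex
manifolds with rational coefficients, `F` is the image of `k` in `ℂ`, and `dR X i` is the algebraic de
Rham cohomology `H^i_dR(X / k)`, as a subset of the cohomology with complex coefficients.
-/

open CategoryTheory AlgebraicGeometry

universe u

namespace Pool.Agent.P8H28.DB

section Alg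

open Pool.Agent.Y121.AHS

variable {K L A : Type} [Field K] [Field L] [Algebra K L] [Ring A] [Algebra K A]

/-- The set `S` of elements of `A`, with coefficients extended to `L`, is a subspace over the field
`F`, is contained in the extension of `p`, and spans it over `L`. -/
structure IsForm (F : Subfield L) (p : Submodule K A) (S : Ext K L A → Prop) : Prop where
  le : ∀ a, S a → a ∈ extSub K L p
  zero : S 0
  add : ∀ a b, S a → S b → S (a + b)
  smul : ∀ r ∈ F, ∀ a, S a → S (extSm K L r a)
  span : ∀ a ∈ extSub K L p, a ∈ Submodule.span L {b | S b}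

/-- The value of a homomorphism. -/
def val {Z : Type*} [AddCommGroup Z] (f : Z →+ A) (z : Z) : A := f z

variable (K) in
/-- The number of linearly independent elements of `S`. -/
noncomputable def cnt (S : Set A) : ℕ := Set.finrank K S

/-- The combinations of elements of `S` which are orthogonal to all elements of `S`. -/
def orth (t : A →ₗ[K] K) (S : Set A) : Set A :=
  {c | c ∈ Submodule.span K S ∧ ∀ x ∈ S, t (c * x) = 0}

/-- The dimension of the span of `S` modulo the elements which are orthogonal to `S`. -/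
noncomputable def rankOf (t : A →ₗ[K] K) (S : Set A) : ℕ := cnt K S - cnt K (orth t S)

end Alg

open Pool.Agent.H914 Pool.Agent.H914.VarClass Pool.Agent.H914.VarClass.Obj
  Pool.Agent.H914.WeilCohomology
open Pool.Agent.Y121.AHS (HL emL twL mulL mapL trL)
open Pool.Agent.Y133.Half (pw)

variable {k : Type u} [Field k] {𝒱 : VarClass k} {ops : CycleOps 𝒱}

/-- The number `2 π i`. -/
noncomputable def tpi : ℂ := 2 * Real.pi * Complex.I

/-- A de Rham structure: for every variety `X` and every degree `i` a subspace `dR X i` over the field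
`F` which spans the cohomology of degree `i` with complex coefficients; these subspaces are stable under
products and pull-backs and contain the classes `(2 π i) ^ j cl(z)` of the algebraic cycles `z` of
codimension `j`, and the values of the orientation on them lie in `(2 π i) ^ dim X F`. -/
structure DeRham (W : WeilCohomology.{u, 0} ops) [Algebra W.K ℂ] (F : Subfield ℂ) where
  /-- the de Rham cohomology -/
  dR : ∀ X : 𝒱.Obj, ℕ → HL W ℂ X → Prop
  form : ∀ X i, IsForm F (W.gr X i) (dR X i)
  mul : ∀ X i j a b, dR X i a → dR X j b → dR X (i + j) (mulL a b)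
  map : ∀ (X Y : 𝒱.Obj) (f : X ⟶ Y) i b, dR Y i b → dR X i (mapL f b)
  cyc : ∀ (X : 𝒱.Obj) j z, X.IsCyc j z → dR X (2 * j) (twL tpi j (emL W ℂ (val (W.cl X) z)))
  tr : ∀ (X : 𝒱.Obj) a, dR X (2 * X.dim) a → ∃ r ∈ F, trL a = tpi ^ X.dim * r

/-- The de Rham-Betti classes of codimension `j`: the rational classes `c` such that `(2 π i) ^ j c`
lies in the de Rham cohomology of degree `2 j`. -/
def IsDRB {W : WeilCohomology.{u, 0} ops} [Algebra W.K ℂ] {F : Subfield ℂ} (D : DeRham W F)
    (X : 𝒱.Obj) (j : ℕ) (c : W.H X) : Prop :=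
  D.dR X (2 * j) (twL tpi j (emL W ℂ c))

/-- The classes of the algebraic cycles of codimension `j`. -/
def IsAlg (W : WeilCohomology.{u, 0} ops) (X : 𝒱.Obj) (j : ℕ) (c : W.H X) : Prop :=
  ∃ z, X.IsCyc j z ∧ val (W.cl X) z = c

/-- The number of linearly independent classes with the property `P` on `X ^ (n + 1)`. -/
noncomputable def num (W : WeilCohomology.{u, 0} ops) (P : ∀ X : 𝒱.Obj, ℕ → W.H X → Prop)
    (X : 𝒱.Obj) (n : ℕ) : ℕ :=
  cnt W.K {c | ∃ j, P (pw X n) j c}

/-- The number of linearly independent classes of algebraic cycles on `X ^ (n + 1)` modulo numerical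
equivalence. -/
noncomputable def algRank (W : WeilCohomology.{u, 0} ops) (X : 𝒱.Obj) (n : ℕ) : ℕ :=
  rankOf (W.tr (pw X n)) {c | ∃ j, IsAlg W (pw X n) j c}

/-- The numbers `h n` are small in comparison with the numbers `t n`: for all `L ≥ 1` and `n ≥ 1` we
have `(L - C log (n + 2) / n) h n ≤ t n`, where
`C = 3 L (L (κ + 1) + 3) b ^ (L (κ + 1) + 5)`, and for all `n` we have
`log (n + 1) h n ≤ 56 (κ + 1) log (2 b) t n`. -/
def Sparse (h t : ℕ → ℕ) (κ b : ℕ) : Prop :=
  (∀ L n : ℕ, 0 < L → 0 < n →
    ((L : ℝ) - (3 * L * (L * (κ + 1) + 3) * b ^ (L * (κ + 1) + 5) : ℕ) * Real.log (n + 2) / n) *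
      h n ≤ t n) ∧
  ∀ n : ℕ, Real.log (n + 1) * h n ≤ 56 * (κ + 1) * Real.log (2 * b) * t n

/-- `(2 - C log (n + 2) / n) r n ≤ t n` for all `n ≥ 1`. -/
def HalfBound (C : ℕ) (r t : ℕ → ℕ) : Prop :=
  ∀ n : ℕ, 0 < n → ((2 : ℝ) - C * Real.log (n + 2) / n) * r n ≤ t n

end Pool.Agent.P8H28.DB
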